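import Pool.Agent.Helper109.PrimMain

/-!
# Primitive trinomials and primitive pentanomials of the same degree over the field with two elements

If `x ^ n + x ^ k + 1` is primitive with root `α` and `s` is prime to `2 ^ n - 1`, then `α ^ s` is
again a primitive element.  For `s = 5` its minimal polynomial is always a pentanomial; for `s = 7`
it is one if `0`, `k`, `n` are distinct modulo seven, and for `s = 17` if two of `0`, `k`, `n` are
congruent modulo seventeen.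
-/

set_option autoImplicit false

namespace Pool.Agent.Results.MP_4f8f6c_nt.NotDivByFour

open Polynomial

theorem result (n k : ℕ) (hn : 6 ≤ n) (hk : 0 < k) (hkn : k < n)
    (hirr : Irreducible (X ^ n + X ^ k + 1 : (ZMod 2)[X]))
    (hprim : IsLeast {t : ℕ | 0 < t ∧ (X ^ n + X ^ k + 1 : (ZMod 2)[X]) ∣ X ^ t + 1} (2 ^ n - 1))
    (hcond : ¬ 4 ∣ n ∨ (¬ 3 ∣ n ∧ n % 7 ≠ 0 ∧ k % 7 ≠ 0 ∧ n % 7 ≠ k % 7) ∨
      (¬ 8 ∣ n ∧ (17 ∣ n ∨ 17 ∣ k ∨ 17 ∣ n - k))) :
    ∃ p : (ZMod 2)[X], p.natDegree = n ∧ p.support.card = 5 ∧ Irreducible p ∧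
      IsLeast {t : ℕ | 0 < t ∧ p ∣ X ^ t + 1} (2 ^ n - 1) :=
  Pool.Agent.Helper109.prim_main hn hk hkn hirr hprim hcond

end Pool.Agent.Results.MP_4f8f6c_nt.NotDivByFour
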